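import Pool.Agent.NE.Stmts

set_option autoImplicit false

open Finset Filter Topology

noncomputable section

namespace Pool.Agent.NE.H2

open Pool.Agent.NE

/-- the class at the time `n` in terms of the class at the time `n + 1` -/
theorem anc_step (hA : AncStmt) (σ : ℕ → ℕ) (hσ : ∀ i, 1 ≤ i → σ i < i) (n j : ℕ) (hn : 1 ≤ n) :
    anc σ (n + 1) j ≤ n ∧ anc σ n j = if anc σ (n + 1) j = n then σ n else anc σ (n + 1) j := by
  obtain ⟨a1, a2, a3, a4⟩ := hA σ (max (j + 1) (n + 1)) (fun i hi _ => hσ i hi)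
  have hj : j < max (j + 1) (n + 1) := lt_of_lt_of_le (Nat.lt_succ_self j) (le_max_left _ _)
  have hnn : n < max (j + 1) (n + 1) := lt_of_lt_of_le (Nat.lt_succ_self n) (le_max_right _ _)
  have b1 := (a2 (n + 1) j (by omega) hj).1
  have b2 := a4 n (n + 1) j hn (Nat.le_succ n) hj
  refine ⟨by omega, ?_⟩
  rw [← b2]
  split_ifs with h
  · rw [h, a3 n n hn le_rfl hnn, a1 n (σ n) (hσ n hn)]
  · exact a1 n _ (by omega)

theorem fib1 (hA : AncStmt) (σ : ℕ → ℕ) (hσ : ∀ i, 1 ≤ i → σ i < i) {E : Type} [AddCommMonoid E]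
    (F : ℕ → E) (R n i : ℕ) (hi : i < n) (hne : i ≠ σ n) :
    ∑ j ∈ range R with anc σ (n + 1) j = i, F j = ∑ j ∈ range R with anc σ n j = i, F j := by
  have hn : 1 ≤ n := by omega
  refine Finset.sum_congr (Finset.filter_congr fun j _ => ?_) fun _ _ => rfl
  obtain ⟨b1, b2⟩ := anc_step hA σ hσ n j hn
  rw [b2]
  split_ifs with h
  · constructor
    · intro h1; omega
    · intro h1; exact absurd h1.symm hne
  · exact Iff.rfl

theorem fib2 (hA : AncStmt) (σ : ℕ → ℕ) (hσ : ∀ i, 1 ≤ i → σ i < i) {E : Type} [AddCommMonoid E]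
    (F : ℕ → E) (R n : ℕ) (hn : 1 ≤ n) :
    ∑ j ∈ range R with anc σ n j = σ n, F j =
      ∑ j ∈ range R with anc σ (n + 1) j = σ n, F j + ∑ j ∈ range R with anc σ (n + 1) j = n, F j := by
  rw [← Finset.sum_union]
  · refine Finset.sum_congr ?_ fun _ _ => rfl
    ext j
    simp only [Finset.mem_filter, Finset.mem_union, Finset.mem_range]
    obtain ⟨b1, b2⟩ := anc_step hA σ hσ n j hn
    rw [b2]
    split_ifs with h
    · constructor
      · rintro ⟨h1, -⟩; exact Or.inr ⟨h1, h⟩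
      · rintro (⟨h1, -⟩ | ⟨h1, -⟩) <;> exact ⟨h1, rfl⟩
    · constructor
      · rintro ⟨h1, h2⟩; exact Or.inl ⟨h1, h2⟩
      · rintro (⟨h1, h2⟩ | ⟨h1, h2⟩)
        · exact ⟨h1, h2⟩
        · exact absurd h2 h
  · rw [Finset.disjoint_filter]
    intro j _ h1 h2
    have := hσ n hn
    omega

theorem bin (hA : AncStmt) (hN : NnbStmt) (hT : TrfStmt) (hM : MsiStmt) : BinStmt := by
  intro X Z _ _ _ _ Ψ N p s σ θ L M Y hTr hL hY
  obtain ⟨t1, t2, t3⟩ := hT N p s σ θ hTr
  obtain ⟨m1, m2, m3⟩ := hM N p s σ θ hTr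
  obtain ⟨n1, n2, n3, n4, -, -, -⟩ := hN N hTr.two
  -- the number of leaves
  have hnn : ∀ n T, n ≤ T → n ≤ nn N T := fun n T h => by
    have := n2 T; omega
  -- the weights at the stage `T`
  have hw : ∀ n T i, i < n → n ≤ T → ms N σ θ n T i = ms N σ θ n n i := fun n T i hi hT' =>
    m1 n n T i (by omega) (hnn n n le_rfl) hT' hi
  have hpos : ∀ n T i, i < n → n ≤ T → 0 < ms N σ θ n T i := fun n T i hi hT' =>
    m2 n T i (by omega) (hnn n T hT') hi
  -- `ms • S`
  have hS : ∀ n T i, i < n → n ≤ T → ms N σ θ n T i • S N σ θ L n T i =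
      ∑ j ∈ range (nn N T) with anc σ n j = i, θ T j • L T j := fun n T i hi hT' => by
    rw [S, smul_smul, mul_inv_cancel₀ (hpos n T i hi hT').ne', one_smul]
  have hYw : ∀ n i, i < n → Tendsto (fun T => ms N σ θ n T i • S N σ θ L n T i) atTop
      (𝓝 (Ψ (ms N σ θ n n i • Y n i))) := fun n i hi => by
    rw [map_smul]
    refine Tendsto.congr' ?_ ((hY n i hi).const_smul (ms N σ θ n n i))
    filter_upwards [eventually_ge_atTop n] with T hT'
    rw [hw n T i hi hT']
  refine ⟨t1, ?_, ?_, ?_, ?_, ?_, ?_, ?_⟩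
  · -- one
    change ∑ j ∈ range (nn N 1) with anc σ 1 j = 0, θ 1 j = 1
    rw [← t3 1]
    refine Finset.sum_congr (Finset.filter_true_of_mem fun j hj => ?_) fun _ _ => rfl
    have := ((hA σ (nn N 1) (fun i hi _ => t1 i hi)).2.1 1 j le_rfl (Finset.mem_range.mp hj)).1
    omega
  · intro n i hi
    exact hpos n n i hi le_rfl
  · -- w1
    intro n i hi hne
    change ms N σ θ (n + 1) (n + 1) i = ms N σ θ n n i
    rw [← hw n (n + 1) i hi (Nat.le_succ n)]
    exact fib1 hA σ t1 _ _ n i hi hne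
  · -- w2
    intro n hn
    change ms N σ θ n n (σ n) = ms N σ θ (n + 1) (n + 1) (σ n) + ms N σ θ (n + 1) (n + 1) n
    rw [← hw n (n + 1) (σ n) (t1 n hn) (Nat.le_succ n)]
    exact fib2 hA σ t1 _ _ n hn
  · -- y1
    intro n i hi hne
    refine Ψ.injective (tendsto_nhds_unique (hY (n + 1) i (by omega)) ?_)
    refine Tendsto.congr' ?_ (hY n i hi)
    filter_upwards with T
    have e1 := fib1 hA σ t1 (θ T) (nn N T) n i hi hne
    have e2 := fib1 hA σ t1 (fun j => θ T j • L T j) (nn N T) n i hi hne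
    rw [S, S, ms, ms, cl, cl, e1, e2]
  · -- y2
    intro n hn
    have hs := t1 n hn
    change ms N σ θ n n (σ n) • Y n (σ n) = ms N σ θ (n + 1) (n + 1) (σ n) • Y (n + 1) (σ n) +
      ms N σ θ (n + 1) (n + 1) n • Y (n + 1) n
    refine Ψ.injective (tendsto_nhds_unique (hYw n (σ n) hs) ?_)
    rw [map_add]
    refine Tendsto.congr' ?_ ((hYw (n + 1) (σ n) (by omega)).add (hYw (n + 1) n (by omega)))
    filter_upwards [eventually_ge_atTop (n + 1)] with T hT'
    rw [hS n T (σ n) hs (by omega), hS (n + 1) T (σ n) (by omega) hT', hS (n + 1) T n (by omega) hT']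
    exact (fib2 hA σ t1 (fun j => θ T j • L T j) (nn N T) n hn).symm
  · -- bdd
    intro n i hi
    rw [← Ψ.norm_map]
    refine le_of_tendsto (hY n i hi).norm ?_
    filter_upwards [eventually_ge_atTop n] with T hT'
    have hp := hpos n T i hi hT'
    have e1 : ms N σ θ n T i * ‖S N σ θ L n T i‖ ≤ ms N σ θ n T i * M := by
      rw [← abs_of_pos hp, ← Real.norm_eq_abs, ← norm_smul, hS n T i hi hT', Real.norm_eq_abs,
        abs_of_pos hp]
      refine (norm_sum_le _ _).trans ?_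
      rw [ms, cl, Finset.sum_mul]
      refine Finset.sum_le_sum fun j hj => ?_
      have hj' : j < nn N T := Finset.mem_range.mp (Finset.mem_filter.mp hj).1
      rw [norm_smul, Real.norm_eq_abs, abs_of_pos (t2 T j hj')]
      exact mul_le_mul_of_nonneg_left (hL T j hj') (t2 T j hj').le
    exact le_of_mul_le_mul_left e1 hp

end Pool.Agent.NE.H2
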